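import Mathlib
import Pool.Agent.Lib_helper66.TreeIneq

/-!
# Almost-spanning versus spanning trees

For a finite simple graph `G` let `s_k(G)` be the number of subtrees of `G` with exactly `k`
vertices.  We prove `s_{n-1}(G) ≥ ((n-1)/n)^(n-3) s_n(G)` for every graph on `n ≥ 2` vertices.

Idea: for every root `x`, the trees on a vertex set `U` decompose as (branch `A` at `x`, tree on
`U \ A`), and the size laws of a uniformly random (size-biased) branch for `m` and `m + 1`
non-root vertices interlace, which gives coupling weights `θ` (an averaged form of the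
Luczak-Winkler growth coupling).  Induction gives a rooted inequality for each `x`; summing over
all `x` gives the result.
-/

set_option autoImplicit false

namespace Pool.Agent.Results.MP_8211ad_co.CompleteGraphExtremal

open Finset Pool.Agent.Lib66.TreeNum Pool.Agent.Lib66.TreeRec Pool.Agent.Lib66.TreeIneq

/-- `s_k(G)`: the number of subtrees of `G` (subgraphs that are trees, distinguished by their
vertex set and edge set) with exactly `k` vertices. -/
noncomputable def subtreeCount {V : Type*} (G : SimpleGraph V) (k : ℕ) : ℕ :=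
  {H : G.Subgraph | H.coe.IsTree ∧ H.verts.ncard = k}.ncard

section conversion

variable {V : Type*} [Fintype V] [DecidableEq V]

omit [DecidableEq V] in
theorem coe_isTree_iff (G : SimpleGraph V) (H : G.Subgraph) (U : Finset V)
    (hU : H.verts = (U : Set V)) : H.coe.IsTree ↔ IsTreeOn H.spanningCoe U := by
  have hsupp : ∀ a b, H.spanningCoe.Adj a b → a ∈ H.verts := by
    intro a b hab
    exact H.edge_vert hab
  have hcoe : H.coe = H.spanningCoe.induce H.verts := by
    ext a b
    simp
  have hcard : Nat.card H.verts = U.card := by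
    rw [hU]; simp
  rw [SimpleGraph.isTree_iff_connected_and_card, hcoe, card_edge_induce _ _ hsupp, hcard]
  unfold IsTreeOn ConnOn
  constructor
  · rintro ⟨hc, he⟩
    refine ⟨⟨fun a b hab => ?_, fun a ha b hb => ?_⟩, he⟩
    · have := hsupp a b hab
      rw [hU] at this
      exact_mod_cast this
    · have ha' : a ∈ H.verts := by rw [hU]; exact_mod_cast ha
      have hb' : b ∈ H.verts := by rw [hU]; exact_mod_cast hb
      exact (hc.preconnected ⟨a, ha'⟩ ⟨b, hb'⟩).map
        (SimpleGraph.Embedding.induce (G := H.spanningCoe) H.verts).toHom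
  · rintro ⟨⟨h1, h2⟩, he⟩
    refine ⟨?_, he⟩
    have hne : U.Nonempty := by
      rw [← Finset.card_pos]; omega
    have : Nonempty H.verts := by
      obtain ⟨a, ha⟩ := hne
      exact ⟨⟨a, by rw [hU]; exact_mod_cast ha⟩⟩
    refine ⟨?_⟩
    rintro ⟨a, ha⟩ ⟨b, hb⟩
    apply reach_induce _ _ hsupp
    apply h2
    · rw [hU] at ha; exact_mod_cast ha
    · rw [hU] at hb; exact_mod_cast hb

theorem subtreeCount_eq (G : SimpleGraph V) (k : ℕ) :
    subtreeCount G k = ∑ U ∈ (univ : Finset V).powersetCard k, tau G U := by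
  classical
  have h1 : ∑ U ∈ (univ : Finset V).powersetCard k, tau G U =
      (((univ : Finset V).powersetCard k).sigma (fun U => Tr G U)).card := by
    rw [Finset.card_sigma]; rfl
  rw [h1, ← Set.ncard_coe_finset]
  unfold subtreeCount
  apply Set.ncard_congr (fun H _ => (⟨H.verts.toFinset, H.spanningCoe⟩ : Σ _ : Finset V, SimpleGraph V))
  · rintro H ⟨hT, hk⟩
    simp only [Finset.coe_sigma, Set.mem_sigma_iff, Finset.mem_coe, Finset.mem_powersetCard,
      Finset.subset_univ, true_and, mem_Tr]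
    refine ⟨?_, H.spanningCoe_le, ?_⟩
    · rw [← hk, Set.ncard_eq_toFinset_card']
    · rw [← coe_isTree_iff G H H.verts.toFinset (by simp)]
      exact hT
  · rintro H H' _ _ heq
    simp only [Sigma.mk.injEq] at heq
    have hv : H.verts = H'.verts := by
      have := heq.1
      rwa [Set.toFinset_inj] at this
    have hadj : H.spanningCoe = H'.spanningCoe := eq_of_heq heq.2
    apply SimpleGraph.Subgraph.ext hv
    funext a b
    have := congrArg (fun T : SimpleGraph V => T.Adj a b) hadj
    simpa using this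
  · rintro ⟨U, T⟩ hz
    simp only [Finset.coe_sigma, Set.mem_sigma_iff, Finset.mem_coe, Finset.mem_powersetCard,
      Finset.subset_univ, true_and, mem_Tr] at hz
    obtain ⟨hk, hTG, hT⟩ := hz
    let H : G.Subgraph :=
      { verts := (U : Set V)
        Adj := T.Adj
        adj_sub := fun h => hTG h
        edge_vert := fun h => by exact_mod_cast hT.1.1 _ _ h
        symm := ⟨fun _ _ h => h.symm⟩ }
    have hspan : H.spanningCoe = T := by
      ext a b; rfl
    refine ⟨H, ⟨?_, ?_⟩, ?_⟩
    · rw [coe_isTree_iff G H U rfl, hspan]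
      exact hT
    · show ((U : Set V)).ncard = k
      rw [Set.ncard_coe_finset, hk]
    · simp only [Sigma.mk.injEq]
      refine ⟨?_, ?_⟩
      · apply Finset.ext
        intro w
        simp [H]
      · rw [hspan]

theorem count_top (G : SimpleGraph V) : subtreeCount G (Fintype.card V) = tau G univ := by
  rw [subtreeCount_eq, ← Finset.card_univ, Finset.powersetCard_self, Finset.sum_singleton]

theorem count_pred (G : SimpleGraph V) (hV : 1 ≤ Fintype.card V) :
    subtreeCount G (Fintype.card V - 1) = ∑ v : V, tau G (univ.erase v) := by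
  rw [subtreeCount_eq]
  symm
  apply Finset.sum_bij (fun v _ => univ.erase v)
  · intro v _
    rw [Finset.mem_powersetCard]
    refine ⟨Finset.subset_univ _, ?_⟩
    rw [Finset.card_erase_of_mem (Finset.mem_univ v), Finset.card_univ]
  · intro v _ w _ h
    by_contra hne
    have : v ∈ univ.erase w := by
      rw [Finset.mem_erase]; exact ⟨hne, Finset.mem_univ _⟩
    rw [← h] at this
    exact (Finset.mem_erase.1 this).1 rfl
  · intro U hU
    rw [Finset.mem_powersetCard] at hU
    have hc : (Uᶜ).card = 1 := by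
      rw [Finset.card_compl, hU.2]; omega
    obtain ⟨v, hv⟩ := Finset.card_eq_one.1 hc
    refine ⟨v, Finset.mem_univ _, ?_⟩
    have : U = ({v} : Finset V)ᶜ := by rw [← hv, compl_compl]
    rw [this]
    ext w
    simp
  · intro v _
    rfl

end conversion

/-- Rooted form: for every vertex `x`, the subtrees on all but one vertex which contain `x`. -/
theorem rooted_form {V : Type*} [Fintype V] [DecidableEq V] (G : SimpleGraph V) (m : ℕ)
    (hV : Fintype.card V = m + 2) (x : V) :
    (tau G univ : ℝ) ≤ (((m:ℝ) + 2) / (m + 1)) ^ m *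
      ∑ v ∈ (univ : Finset V).erase x, (tau G (univ.erase v) : ℝ) := by
  have hcard : ((univ : Finset V).erase x).card = m + 1 := by
    rw [Finset.card_erase_of_mem (Finset.mem_univ x), Finset.card_univ, hV]; rfl
  have h := rooted G m x ((univ : Finset V).erase x) (Finset.notMem_erase _ _) hcard
  rw [Finset.insert_erase (Finset.mem_univ x), vv_ratio] at h
  refine h.trans (le_of_eq ?_)
  congr 1
  apply Finset.sum_congr rfl
  intro v hv
  rw [Finset.mem_erase] at hv
  rw [Finset.erase_right_comm, Finset.insert_erase]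
  rw [Finset.mem_erase]
  exact ⟨hv.1.symm, Finset.mem_univ _⟩

/-- For every graph `G` on `n ≥ 2` vertices, `s_{n-1}(G) ≥ ((n-1)/n)^(n-3) s_n(G)`. -/
theorem result {V : Type*} [Fintype V] (G : SimpleGraph V) (n : ℕ) (hn : 2 ≤ n)
    (hV : Fintype.card V = n) :
    (((n:ℝ) - 1) / n) ^ ((n:ℤ) - 3) * (subtreeCount G n : ℝ) ≤ (subtreeCount G (n-1) : ℝ) := by
  classical
  obtain ⟨m, rfl⟩ : ∃ m, n = m + 2 := ⟨n - 2, by omega⟩
  have h1 : subtreeCount G (m+2) = tau G univ := by rw [← hV, count_top]
  have h2 : subtreeCount G (m+2-1) = ∑ v : V, tau G (univ.erase v) := by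
    rw [← hV, count_pred G (by omega)]
  rw [h1, h2]
  push_cast
  have hsum : ∑ x : V, (tau G univ : ℝ) ≤ ∑ x : V, (((m:ℝ) + 2) / (m + 1)) ^ m *
      ∑ v ∈ (univ : Finset V).erase x, (tau G (univ.erase v) : ℝ) :=
    Finset.sum_le_sum (fun x _ => rooted_form G m hV x)
  rw [← Finset.mul_sum, Finset.sum_const, Finset.card_univ, hV, nsmul_eq_mul] at hsum
  have hswap : ∑ x : V, ∑ v ∈ (univ : Finset V).erase x, (tau G (univ.erase v) : ℝ) =
      ((m:ℝ) + 1) * ∑ v : V, (tau G (univ.erase v) : ℝ) := by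
    have : ∑ x : V, ∑ v ∈ (univ : Finset V).erase x, (tau G (univ.erase v) : ℝ) =
        ∑ v : V, ∑ x ∈ (univ : Finset V).erase v, (tau G (univ.erase v) : ℝ) := by
      apply Finset.sum_comm'
      intro x v
      simp only [Finset.mem_erase, Finset.mem_univ, true_and, and_true]
      exact ⟨fun h => h.symm, fun h => h.symm⟩
    rw [this, Finset.mul_sum]
    apply Finset.sum_congr rfl
    intro v _
    rw [Finset.sum_const, Finset.card_erase_of_mem (Finset.mem_univ v), Finset.card_univ, hV,
      nsmul_eq_mul]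
    congr 1
    push_cast [show m + 2 - 1 = m + 1 from rfl]
    ring
  rw [hswap] at hsum
  push_cast at hsum
  set W : ℝ := ∑ v : V, (tau G (univ.erase v) : ℝ) with hW
  have hm1 : (0:ℝ) < (m:ℝ) + 1 := by positivity
  have hm2 : (0:ℝ) < (m:ℝ) + 2 := by positivity
  have e0 : ((m:ℝ) + 2 - 1) / (m + 2) = ((m:ℝ) + 1) / (m + 2) := by ring
  have e1 : (((m:ℝ) + 2 - 1) / (m + 2)) ^ (((m:ℤ) + 2) - 3) =
      (((m:ℝ) + 2) / (m + 1)) * ((((m:ℝ) + 2) / (m + 1)) ^ m)⁻¹ := by
    have hq : ((m:ℝ) + 1) / (m + 2) ≠ 0 := by positivity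
    rw [e0, show ((m:ℤ) + 2) - 3 = (m:ℤ) - 1 by ring, zpow_sub_one₀ hq, zpow_natCast, mul_comm,
      inv_div, ← inv_pow, inv_div]
  rw [e1]
  have hpow : (0:ℝ) < (((m:ℝ) + 2) / (m + 1)) ^ m := by positivity
  have h3 : (tau G univ : ℝ) * (((m:ℝ) + 2) / (m + 1)) ≤ (((m:ℝ) + 2) / (m + 1)) ^ m * W := by
    have : (tau G univ : ℝ) * (((m:ℝ) + 2) / (m + 1)) = (((m:ℝ) + 2) * (tau G univ : ℝ)) / (m + 1) := by
      ring
    rw [this, div_le_iff₀ hm1]
    calc ((m:ℝ) + 2) * (tau G univ : ℝ) ≤ _ := hsum
      _ = _ := by ring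
  calc ((m:ℝ) + 2) / (m + 1) * ((((m:ℝ) + 2) / (m + 1)) ^ m)⁻¹ * (tau G univ : ℝ)
      = ((((m:ℝ) + 2) / (m + 1)) ^ m)⁻¹ * ((tau G univ : ℝ) * (((m:ℝ) + 2) / (m + 1))) := by ring
    _ ≤ ((((m:ℝ) + 2) / (m + 1)) ^ m)⁻¹ * ((((m:ℝ) + 2) / (m + 1)) ^ m * W) :=
        mul_le_mul_of_nonneg_left h3 (inv_nonneg.2 hpow.le)
    _ = W := by rw [← mul_assoc, inv_mul_cancel₀ hpow.ne', one_mul]

end Pool.Agent.Results.MP_8211ad_co.CompleteGraphExtremal
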